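import Mathlib

set_option autoImplicit false

/-!
# Deleting vertices from a forest until two vertices have maximum degree: the exact threshold
-/

namespace Pool.Agent.Results.MP_fe24f9_co.ForestThreshold

open Finset

/-- At least two vertices of `H` have degree `Δ(H)` (that is, degree at least the degree of every
vertex), or `H` has fewer than two vertices. -/
def Stops {W : Type} (H : SimpleGraph W) : Prop :=
  Nat.card W < 2 ∨ ∃ u v : W, u ≠ v ∧
    (∀ w, (H.neighborSet w).ncard ≤ (H.neighborSet u).ncard) ∧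
    (∀ w, (H.neighborSet w).ncard ≤ (H.neighborSet v).ncard)

/-- The least `|B|` over all vertex sets `B` such that in `G - B` at least two vertices have
maximum degree or `G - B` has fewer than two vertices. -/
noncomputable def f {V : Type} [Fintype V] (G : SimpleGraph V) : ℕ :=
  sInf {k : ℕ | ∃ B : Finset V, B.card = k ∧ Stops (G.induce {v : V | v ∉ B})}

/-- The integer `(t ^ 3 + 6 t ^ 2 + 17 t + 12) / 6`. -/
def N (t : ℕ) : ℕ := (t ^ 3 + 6 * t ^ 2 + 17 * t + 12) / 6

/-! ### Degrees after deletion -/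

open Classical in
/-- Number of neighbours of `v` outside `S`. -/
noncomputable def dg {V : Type} [Fintype V] (F : SimpleGraph V) (S : Finset V) (v : V) : ℕ :=
  (univ.filter (fun w => F.Adj v w ∧ w ∉ S)).card

theorem degree_induce {V : Type} [Fintype V] (F : SimpleGraph V) (S : Finset V)
    (v : {v : V | v ∉ S}) :
    ((F.induce {v : V | v ∉ S}).neighborSet v).ncard = dg F S v.1 := by
  classical
  unfold dg
  rw [← Set.ncard_image_of_injective _ (Subtype.val_injective), ← Set.ncard_coe_finset]
  congr 1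
  ext w
  constructor
  · rintro ⟨x, hx, rfl⟩
    rw [mem_coe, mem_filter]
    exact ⟨mem_univ _, hx, x.2⟩
  · intro hw
    rw [mem_coe, mem_filter] at hw
    exact ⟨⟨w, hw.2.2⟩, hw.2.1, rfl⟩

open Classical in
/-- `Stops` of the graph with `S` deleted in terms of `dg`. -/
theorem stops_iff {V : Type} [Fintype V] (F : SimpleGraph V) (S : Finset V) :
    Stops (F.induce {v : V | v ∉ S}) ↔
      (univ.filter (fun v : V => v ∉ S)).card < 2 ∨
      ∃ u v : V, u ≠ v ∧ u ∉ S ∧ v ∉ S ∧ dg F S u = dg F S v ∧ ∀ w, w ∉ S → dg F S w ≤ dg F S u := by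
  unfold Stops
  have hcard : Nat.card {v : V | v ∉ S} = (univ.filter (fun v : V => v ∉ S)).card := by
    rw [Nat.card_eq_fintype_card, Fintype.card_subtype]
    congr 1
  rw [hcard]
  refine or_congr Iff.rfl ?_
  constructor
  · rintro ⟨u, v, huv, hu, hv⟩
    refine ⟨u.1, v.1, fun h => huv (Subtype.ext h), u.2, v.2, ?_, ?_⟩
    · have h1 := hu v
      have h2 := hv u
      rw [degree_induce, degree_induce] at h1 h2
      omega
    · intro w hw
      have h1 := hu ⟨w, hw⟩
      rw [degree_induce, degree_induce] at h1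
      exact h1
  · rintro ⟨u, v, huv, hu, hv, h1, h2⟩
    refine ⟨⟨u, hu⟩, ⟨v, hv⟩, fun h => huv (congrArg Subtype.val h), ?_, ?_⟩
    · intro w
      rw [degree_induce, degree_induce]
      exact h2 w.1 w.2
    · intro w
      rw [degree_induce, degree_induce]
      exact (h2 w.1 w.2).trans h1.le

/-! ### Lower bounds in a forest that does not stop -/

theorem no_triangle {V : Type} {F : SimpleGraph V} (hF : F.IsAcyclic) {a b c : V}
    (h1 : F.Adj a b) (h2 : F.Adj b c) (h3 : F.Adj c a) : False := by
  have p1 : (SimpleGraph.Walk.cons h1 SimpleGraph.Walk.nil).IsPath := by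
    simp [h1.ne]
  have p2 : (SimpleGraph.Walk.cons h3.symm (SimpleGraph.Walk.cons h2.symm
      SimpleGraph.Walk.nil)).IsPath := by
    simp [h1.ne, h2.ne.symm, h3.ne.symm]
  have := (hF.subsingleton_path _ _).elim ⟨_, p1⟩ ⟨_, p2⟩
  have h4 := congrArg (fun p : F.Path a b => p.1.length) this
  simp at h4

theorem no_square {V : Type} {F : SimpleGraph V} (hF : F.IsAcyclic) {a b c d : V}
    (h1 : F.Adj a b) (h2 : F.Adj b c) (h3 : F.Adj c d) (h4 : F.Adj d a) (hac : a ≠ c)
    (hbd : b ≠ d) : False := by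
  have p1 : (SimpleGraph.Walk.cons h1 (SimpleGraph.Walk.cons h2 SimpleGraph.Walk.nil)).IsPath := by
    simp [h1.ne, h2.ne, hac]
  have p2 : (SimpleGraph.Walk.cons h4.symm (SimpleGraph.Walk.cons h3.symm
      SimpleGraph.Walk.nil)).IsPath := by
    simp [h4.ne.symm, h3.ne.symm, hac]
  have := (hF.subsingleton_path _ _).elim ⟨_, p1⟩ ⟨_, p2⟩
  have h5 := congrArg (fun p : F.Path a c => p.1.support) this
  simp at h5
  exact hbd h5

open Classical in
/-- No set `B ⊇ S` with at most `k` further vertices makes `F - B` stop. -/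
def NS {V : Type} [Fintype V] (F : SimpleGraph V) (S : Finset V) (k : ℕ) : Prop :=
  ∀ B : Finset V, S ⊆ B → (B \ S).card ≤ k → ¬ Stops (F.induce {v : V | v ∉ B})

open Classical in
theorem dg_mono {V : Type} [Fintype V] (F : SimpleGraph V) {S B : Finset V} (h : S ⊆ B) (v : V) :
    dg F B v ≤ dg F S v := by
  classical
  apply Finset.card_le_card
  intro w hw
  rw [mem_filter] at hw ⊢
  exact ⟨hw.1, hw.2.1, fun hS => hw.2.2 (h hS)⟩

open Classical in
theorem one_le_dg {V : Type} [Fintype V] (F : SimpleGraph V) {S : Finset V} {v w : V}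
    (h : F.Adj v w) (hw : w ∉ S) : 1 ≤ dg F S v := by
  classical
  apply Finset.card_pos.mpr
  exact ⟨w, mem_filter.mpr ⟨mem_univ _, h, hw⟩⟩

open Classical in
theorem exists_of_one_le_dg {V : Type} [Fintype V] (F : SimpleGraph V) {S : Finset V} {v : V}
    (h : 1 ≤ dg F S v) : ∃ w, F.Adj v w ∧ w ∉ S := by
  classical
  obtain ⟨w, hw⟩ := Finset.card_pos.mp h
  rw [mem_filter] at hw
  exact ⟨w, hw.2⟩

theorem dg_le_of_subset {V : Type} [Fintype V] (F : SimpleGraph V) {S : Finset V} {v : V}
    (T : Finset V) (h : ∀ w, F.Adj v w → w ∉ S → w ∈ T) : dg F S v ≤ T.card := by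
  classical
  apply Finset.card_le_card
  intro w hw
  rw [mem_filter] at hw
  exact h w hw.2.1 hw.2.2

theorem le_dg_add {V : Type} [Fintype V] (F : SimpleGraph V) {S : Finset V} {v : V}
    (T R : Finset V) (h : ∀ w ∈ T, w ∉ R → F.Adj v w ∧ w ∉ S) : T.card ≤ dg F S v + R.card := by
  classical
  unfold dg
  refine le_trans (Finset.card_le_card ?_) (Finset.card_union_le _ _)
  intro w hw
  rw [mem_union, mem_filter]
  by_cases hR : w ∈ R
  · exact Or.inr hR
  · exact Or.inl ⟨mem_univ _, h w hw hR⟩

theorem stops_imp {V : Type} [Fintype V] (F : SimpleGraph V) (S : Finset V)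
    (h : Stops (F.induce {v : V | v ∉ S})) : (∀ x y : V, x ∉ S → y ∉ S → x = y) ∨
      ∃ u v : V, u ≠ v ∧ u ∉ S ∧ v ∉ S ∧ dg F S u = dg F S v ∧ ∀ w, w ∉ S → dg F S w ≤ dg F S u := by
  classical
  rw [stops_iff] at h
  rcases h with h | h
  · left
    intro x y hx hy
    have h1 : (univ.filter (fun v : V => v ∉ S)).card ≤ 1 := by omega
    rw [Finset.card_le_one] at h1
    exact h1 x (mem_filter.mpr ⟨mem_univ _, hx⟩) y (mem_filter.mpr ⟨mem_univ _, hy⟩)
  · right
    exact h

theorem stops_univ {V : Type} [Fintype V] (F : SimpleGraph V) :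
    Stops (F.induce {v : V | v ∉ (univ : Finset V)}) := by
  classical
  rw [stops_iff]
  left
  simp

open Classical in
/-- The unique vertex of maximum degree. -/
theorem exists_max {V : Type} [Fintype V] (F : SimpleGraph V) (S : Finset V)
    (h : ¬ Stops (F.induce {v : V | v ∉ S})) :
    ∃ u, u ∉ S ∧ (∀ w, w ∉ S → w ≠ u → dg F S w < dg F S u) ∧ ∃ w, w ∉ S ∧ w ≠ u := by
  classical
  rw [stops_iff] at h
  push Not at h
  obtain ⟨h1, h2⟩ := h
  have h3 : 1 < (univ.filter (fun v : V => v ∉ S)).card := by omega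
  have h4 : (univ.filter (fun v : V => v ∉ S)).Nonempty := Finset.card_pos.mp (by omega)
  obtain ⟨u, hu, hmax⟩ := Finset.exists_max_image _ (dg F S) h4
  rw [mem_filter] at hu
  refine ⟨u, hu.2, ?_, ?_⟩
  · intro w hw hwu
    have h5 : dg F S w ≤ dg F S u := hmax w (mem_filter.mpr ⟨mem_univ _, hw⟩)
    rcases lt_or_eq_of_le h5 with h6 | h6
    · exact h6
    · exfalso
      obtain ⟨x, hx, hxlt⟩ := h2 u w hwu.symm hu.2 hw h6.symm
      exact absurd (hmax x (mem_filter.mpr ⟨mem_univ _, hx⟩)) (not_le.mpr hxlt)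
  · obtain ⟨w, hw, hwu⟩ := Finset.exists_mem_ne h3 u
    rw [mem_filter] at hw
    exact ⟨w, hw.2, hwu⟩

open Classical in
theorem two_le_max {V : Type} [Fintype V] (F : SimpleGraph V) (S : Finset V) {u : V}
    (hu : u ∉ S) (hmax : ∀ w, w ∉ S → w ≠ u → dg F S w < dg F S u) (hw : ∃ w, w ∉ S ∧ w ≠ u) :
    2 ≤ dg F S u := by
  obtain ⟨w, hw1, hw2⟩ := hw
  have h1 := hmax w hw1 hw2
  obtain ⟨x, hx1, hx2⟩ := exists_of_one_le_dg F (S := S) (v := u) (by omega)
  have h2 : 1 ≤ dg F S x := one_le_dg F hx1.symm hu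
  have h3 := hmax x hx2 hx1.ne.symm
  omega

open Classical in
/-- The gap between the largest and the second largest degree. -/
theorem gap {V : Type} [Fintype V] (F : SimpleGraph V) (hF : F.IsAcyclic)
    (S : Finset V) (k : ℕ) (hNS : NS F S k) {u w : V} (hu : u ∉ S)
    (hmax : ∀ w, w ∉ S → w ≠ u → dg F S w < dg F S u) (hw : w ∉ S) (hwu : w ≠ u)
    (hwmax : ∀ x, x ∉ S → x ≠ u → dg F S x ≤ dg F S w) : dg F S w + k + 1 ≤ dg F S u := by
  classical
  by_contra hcon
  push Not at hcon
  have hlt := hmax w hw hwu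
  -- `w` has a neighbour
  have hw1 : 1 ≤ dg F S w := by
    obtain ⟨x, hx1, hx2⟩ := exists_of_one_le_dg F (S := S) (v := u) (by omega)
    have h2 : 1 ≤ dg F S x := one_le_dg F hx1.symm hu
    exact h2.trans (hwmax x hx2 hx1.ne.symm)
  set Nu := univ.filter (fun x => (F.Adj u x ∧ x ∉ S) ∧ ¬ (x = w ∨ F.Adj w x)) with hNu
  have hsplit : (univ.filter (fun x => (F.Adj u x ∧ x ∉ S) ∧ (x = w ∨ F.Adj w x))).card +
      Nu.card = dg F S u := by
    have h1 := Finset.card_filter_add_card_filter_not (s := univ.filter (fun x => F.Adj u x ∧ x ∉ S))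
      (fun x => (x = w ∨ F.Adj w x))
    rw [Finset.filter_filter, Finset.filter_filter] at h1
    exact h1
  have hone : (univ.filter (fun x => (F.Adj u x ∧ x ∉ S) ∧ (x = w ∨ F.Adj w x))).card ≤ 1 := by
    rw [Finset.card_le_one]
    intro x hx y hy
    rw [mem_filter] at hx hy
    obtain ⟨_, ⟨hx1, _⟩, hx2⟩ := hx
    obtain ⟨_, ⟨hy1, _⟩, hy2⟩ := hy
    rcases hx2 with hx2 | hx2
    · rcases hy2 with hy2 | hy2
      · rw [hx2, hy2]
      · exfalso
        subst hx2
        exact no_triangle hF hx1 hy2 hy1.symm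
    · rcases hy2 with hy2 | hy2
      · exfalso
        subst hy2
        exact no_triangle hF hy1 hx2 hx1.symm
      · by_contra hxy
        exact no_square hF hx1 hx2.symm hy2 hy1.symm hwu.symm hxy
  obtain ⟨X, hXN, hXcard⟩ := Finset.exists_subset_card_eq (s := Nu) (n := dg F S u - dg F S w)
    (by omega)
  have hX : ∀ x ∈ X, F.Adj u x ∧ x ∉ S ∧ x ≠ w ∧ ¬ F.Adj w x := by
    intro x hx
    have := hXN hx
    rw [hNu, mem_filter] at this
    tauto
  apply hNS (S ∪ X) Finset.subset_union_left
  · have h1 : (S ∪ X) \ S ⊆ X := by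
      intro x hx
      rw [mem_sdiff, mem_union] at hx
      tauto
    have := Finset.card_le_card h1
    omega
  · rw [stops_iff]
    right
    have hdu : dg F (S ∪ X) u = dg F S w := by
      have h1 : (univ.filter (fun x => F.Adj u x ∧ x ∉ S ∪ X)) =
          (univ.filter (fun x => F.Adj u x ∧ x ∉ S)) \ X := by
        ext x
        simp only [mem_filter, mem_univ, true_and, mem_union, mem_sdiff]
        tauto
      unfold dg
      rw [h1, Finset.card_sdiff_of_subset]
      · unfold dg at hXcard hlt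
        omega
      · intro x hx
        rw [mem_filter]
        exact ⟨mem_univ _, (hX x hx).1, (hX x hx).2.1⟩
    have hdw : dg F (S ∪ X) w = dg F S w := by
      unfold dg
      congr 1
      ext x
      simp only [mem_filter, mem_univ, true_and, mem_union]
      constructor
      · rintro ⟨h1, h2⟩
        exact ⟨h1, fun h => h2 (Or.inl h)⟩
      · rintro ⟨h1, h2⟩
        refine ⟨h1, ?_⟩
        rintro (h3 | h3)
        · exact h2 h3
        · exact (hX x h3).2.2.2 h1
    refine ⟨u, w, hwu.symm, ?_, ?_, by rw [hdu, hdw], ?_⟩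
    · rw [mem_union]
      rintro (h1 | h1)
      · exact hu h1
      · exact F.irrefl (hX u h1).1
    · rw [mem_union]
      rintro (h1 | h1)
      · exact hw h1
      · exact (hX w h1).2.2.1 rfl
    · intro x hx
      rw [hdu]
      have hxS : x ∉ S := fun h => hx (mem_union_left _ h)
      by_cases hxu : x = u
      · rw [hxu, hdu]
      · exact (dg_mono F Finset.subset_union_left x).trans (hwmax x hxS hxu)

/-- `C(j + 2, 2) + 1`. -/
def cE (j : ℕ) : ℕ := (j + 2).choose 2 + 1

theorem cE_succ (j : ℕ) : cE (j + 1) = cE j + j + 2 := by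
  unfold cE
  have h : (j + 1 + 2).choose 2 = (j + 2).choose 1 + (j + 2).choose 2 :=
    Nat.choose_succ_succ (j + 2) 1
  rw [h, Nat.choose_one_right]
  omega

theorem cE_zero : cE 0 = 2 := rfl

theorem two_cE (j : ℕ) : 2 * cE j = j ^ 2 + 3 * j + 4 := by
  induction j with
  | zero => rfl
  | succ j ih =>
    rw [cE_succ]
    ring_nf
    ring_nf at ih
    omega

theorem sum_cE (t : ℕ) : ∑ j ∈ range (t + 1), cE j = N t := by
  have h : ∀ t : ℕ, 6 * ∑ j ∈ range (t + 1), cE j = t ^ 3 + 6 * t ^ 2 + 17 * t + 12 := by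
    intro t
    induction t with
    | zero => rfl
    | succ t ih =>
      rw [Finset.sum_range_succ, Nat.mul_add, ih]
      have h1 := two_cE (t + 1)
      have h2 : 6 * cE (t + 1) = 3 * ((t + 1) ^ 2 + 3 * (t + 1) + 4) := by
        rw [← h1]
        ring
      rw [h2]
      ring
  unfold N
  rw [← h t]
  omega

open Classical in
/-- The number of edges of `F` avoiding `S`. -/
noncomputable def eS {V : Type} [Fintype V] (F : SimpleGraph V) (S : Finset V) : ℕ :=
  (F.edgeFinset.filter (fun e => ∀ x ∈ e, x ∉ S)).card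

open Classical in
theorem eS_insert {V : Type} [Fintype V] (F : SimpleGraph V) (S : Finset V) {u : V}
    (hu : u ∉ S) : dg F S u + eS F (insert u S) ≤ eS F S := by
  classical
  have h1 : dg F S u = ((univ.filter (fun x => F.Adj u x ∧ x ∉ S)).image (fun x => s(u, x))).card := by
    rw [Finset.card_image_of_injOn]
    · rfl
    · intro x _ y _ hxy
      have h : x = y ∨ u = y ∧ x = u := by simpa using hxy
      rcases h with h | ⟨h, h'⟩
      · exact h
      · rw [h', h]
  rw [h1]
  unfold eS
  rw [← Finset.card_union_of_disjoint]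
  · apply Finset.card_le_card
    intro e he
    rw [mem_union, mem_image, mem_filter] at he
    rw [mem_filter]
    rcases he with ⟨x, hx, rfl⟩ | ⟨he1, he2⟩
    · rw [mem_filter] at hx
      refine ⟨?_, ?_⟩
      · rw [SimpleGraph.mem_edgeFinset, SimpleGraph.mem_edgeSet]
        exact hx.2.1
      · intro y hy
        rw [Sym2.mem_iff] at hy
        rcases hy with rfl | rfl
        · exact hu
        · exact hx.2.2
    · exact ⟨he1, fun x hx hS => he2 x hx (mem_insert_of_mem hS)⟩
  · rw [Finset.disjoint_left]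
    intro e he1 he2
    rw [mem_image] at he1
    rw [mem_filter] at he2
    obtain ⟨x, _, rfl⟩ := he1
    exact he2.2 u (Sym2.mem_mk_left _ _) (mem_insert_self _ _)

open Classical in
theorem main_lower {V : Type} [Fintype V] (F : SimpleGraph V) (hF : F.IsAcyclic)
    (k : ℕ) : ∀ S : Finset V, NS F S k →
      ∃ u, u ∉ S ∧ cE k ≤ dg F S u ∧ ∑ j ∈ range (k + 1), cE j ≤ eS F S := by
  induction k with
  | zero =>
    intro S hNS
    obtain ⟨u, hu, hmax, hex⟩ := exists_max F S (hNS S (Finset.Subset.refl _) (by simp))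
    have h2 := two_le_max F S hu hmax hex
    refine ⟨u, hu, h2, ?_⟩
    rw [Finset.sum_range_one, cE_zero]
    have := eS_insert F S hu
    omega
  | succ k ih =>
    intro S hNS
    obtain ⟨u, hu, hmax, w0, hw0, hw0u⟩ := exists_max F S (hNS S (Finset.Subset.refl _) (by simp))
    have hNS' : NS F (insert u S) k := by
      intro B hB hcard
      apply hNS B ((Finset.subset_insert u S).trans hB)
      have h1 : B \ S ⊆ insert u (B \ insert u S) := by
        intro x hx
        rw [mem_sdiff] at hx
        rw [mem_insert, mem_sdiff, mem_insert]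
        tauto
      have h2 := (Finset.card_le_card h1).trans (Finset.card_insert_le _ _)
      omega
    obtain ⟨u', hu', hdeg', hsum'⟩ := ih (insert u S) hNS'
    -- the second largest degree
    have hne : (univ.filter (fun v : V => v ∉ S ∧ v ≠ u)).Nonempty :=
      ⟨w0, mem_filter.mpr ⟨mem_univ _, hw0, hw0u⟩⟩
    obtain ⟨w, hw, hwmax⟩ := Finset.exists_max_image _ (dg F S) hne
    rw [mem_filter] at hw
    have hgap := gap F hF S (k + 1) hNS hu hmax hw.2.1 hw.2.2
      (fun x hx hxu => hwmax x (mem_filter.mpr ⟨mem_univ _, hx, hxu⟩))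
    have h1 : dg F (insert u S) u' ≤ dg F S u' := dg_mono F (Finset.subset_insert u S) u'
    have h2 : dg F S u' ≤ dg F S w := by
      apply hwmax u'
      rw [mem_insert, not_or] at hu'
      exact mem_filter.mpr ⟨mem_univ _, hu'.2, hu'.1⟩
    have h3 := cE_succ k
    have h4 : cE (k + 1) ≤ dg F S u := by omega
    refine ⟨u, hu, h4, ?_⟩
    rw [Finset.sum_range_succ]
    have := eS_insert F S hu
    omega

open Classical in
theorem eS_lt {V : Type} [Fintype V] [Nonempty V] (F : SimpleGraph V) (hF : F.IsAcyclic) :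
    eS F ∅ < Fintype.card V := by
  classical
  obtain ⟨T, hFT, _, hT⟩ := (SimpleGraph.connected_top (V := V)).exists_isTree_le_of_le_of_isAcyclic
    (le_top : F ≤ ⊤) hF
  have h1 := hT.card_edgeFinset
  have h2 : eS F ∅ ≤ T.edgeFinset.card := by
    apply Finset.card_le_card
    intro e he
    rw [mem_filter, SimpleGraph.mem_edgeFinset] at he
    rw [SimpleGraph.mem_edgeFinset]
    exact SimpleGraph.edgeSet_mono hFT he.1
  omega

open Classical in
/-- Part (i). -/
theorem upper (t : ℕ) (V : Type) [Fintype V] (F : SimpleGraph V) (hF : F.IsAcyclic)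
    (hcard : Fintype.card V ≤ N t) : f F ≤ t := by
  classical
  by_contra hcon
  push Not at hcon
  have hNS : NS F ∅ t := by
    intro B _ hB hstop
    rw [Finset.sdiff_empty] at hB
    have : f F ≤ B.card := Nat.sInf_le ⟨B, rfl, hstop⟩
    omega
  obtain ⟨u, _, _, hsum⟩ := main_lower F hF t ∅ hNS
  have : Nonempty V := ⟨u⟩
  have h1 := eS_lt F hF
  rw [sum_cE] at hsum
  omega

/-! ### The extremal tree -/

/-- A graph with a height function such that every vertex has at most one neighbour whose height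
is not larger is a forest. -/
theorem acyclic_of_height {V : Type} (G : SimpleGraph V) (h : V → ℕ) (par : V → V)
    (H : ∀ u v, G.Adj u v → h v ≤ h u → v = par u) : G.IsAcyclic := by
  classical
  intro v c hc
  obtain ⟨m, hm, hmax⟩ := Finset.exists_max_image c.support.toFinset h
    ⟨v, by rw [List.mem_toFinset]; exact c.start_mem_support⟩
  rw [List.mem_toFinset] at hm
  have hc' : (c.rotate m hm).IsCycle := hc.rotate hm
  have hsupp : ∀ x, x ∈ (c.rotate m hm).support → h x ≤ h m := by
    intro x hx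
    apply hmax
    rw [List.mem_toFinset]
    exact (c.mem_support_rotate_iff m hm).mp hx
  have h1 : (c.rotate m hm).snd = par m := by
    apply H m _ (SimpleGraph.Walk.adj_snd hc'.not_nil)
    exact hsupp _ ((c.rotate m hm).getVert_mem_support 1)
  have h2 : (c.rotate m hm).penultimate = par m := by
    apply H m _ (SimpleGraph.Walk.adj_penultimate hc'.not_nil).symm
    exact hsupp _ ((c.rotate m hm).getVert_mem_support _)
  exact hc'.snd_ne_penultimate (h1.trans h2.symm)

/-- Vertices of the extremal tree: a root `none`, centres `some ⟨j, none⟩` for `j ≤ t` and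
`cE j - 1` leaves `some ⟨j, some l⟩` at the centre `j`. -/
abbrev TV (t : ℕ) : Type := Option (Σ j : Fin (t + 1), Option (Fin (cE j - 1)))

/-- The parent function of the extremal tree. -/
def par {t : ℕ} : TV t → TV t
  | none => none
  | some ⟨_, none⟩ => none
  | some ⟨j, some _⟩ => some ⟨j, none⟩

/-- The height in the extremal tree. -/
def ht {t : ℕ} : TV t → ℕ
  | none => 0
  | some ⟨_, none⟩ => 1
  | some ⟨_, some _⟩ => 2

/-- The extremal tree. -/
def Tr (t : ℕ) : SimpleGraph (TV t) where
  Adj u v := u ≠ v ∧ (v = par u ∨ u = par v)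
  symm := ⟨fun _ _ h => ⟨h.1.symm, h.2.symm⟩⟩
  loopless := ⟨fun _ h => h.1 rfl⟩

theorem ht_par {t : ℕ} (u : TV t) (h : u ≠ par u) : ht (par u) < ht u := by
  rcases u with _ | ⟨j, _ | l⟩
  · exact absurd rfl h
  · exact Nat.zero_lt_one
  · exact Nat.one_lt_two

theorem Tr_acyclic (t : ℕ) : (Tr t).IsAcyclic := by
  apply acyclic_of_height (Tr t) ht par
  rintro u v ⟨hne, h | h⟩ hle
  · exact h
  · exfalso
    rw [h] at hle hne
    have := ht_par v hne.symm
    omega

theorem card_TV (t : ℕ) : Fintype.card (TV t) = N t + 1 := by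
  rw [Fintype.card_option, Fintype.card_sigma, ← sum_cE, Finset.sum_range]
  congr 1
  apply Finset.sum_congr rfl
  intro j _
  rw [Fintype.card_option, Fintype.card_fin]
  have : 1 ≤ cE j := Nat.succ_le_succ (Nat.zero_le _)
  omega

/-- Degree of a centre after deletion of `B`. -/
theorem dg_center_lower (t : ℕ) (B : Finset (TV t)) (i : Fin (t + 1)) (hB : B.card ≤ t)
    (hhigh : ∀ j : Fin (t + 1), i < j → (some ⟨j, none⟩ : TV t) ∈ B) :
    cE i ≤ dg (Tr t) B (some ⟨i, none⟩) + i := by
  -- all neighbours of the centre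
  set Nb : Finset (TV t) := insert none ((univ : Finset (Fin (cE i - 1))).image
    (fun l => (some ⟨i, some l⟩ : TV t))) with hNb
  have hNbcard : Nb.card = cE i := by
    rw [hNb, Finset.card_insert_of_notMem, Finset.card_image_of_injective, Finset.card_univ,
      Fintype.card_fin]
    · have : 1 ≤ cE i := Nat.succ_le_succ (Nat.zero_le _)
      omega
    · intro l l' h
      simpa using h
    · simp
  have hNbadj : ∀ x ∈ Nb, (Tr t).Adj (some ⟨i, none⟩) x := by
    intro x hx
    rw [hNb, mem_insert, mem_image] at hx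
    rcases hx with rfl | ⟨l, _, rfl⟩
    · exact ⟨by simp, Or.inl rfl⟩
    · exact ⟨by simp, Or.inr rfl⟩
  -- deleted vertices
  set Hc : Finset (TV t) := (univ.filter (fun j : Fin (t + 1) => i < j)).image
    (fun j => (some ⟨j, none⟩ : TV t)) with hHc
  have hHcard : Hc.card = t - i := by
    rw [hHc, Finset.card_image_of_injective]
    · have h1 : (univ.filter (fun j : Fin (t + 1) => i < j)) = Finset.Ioi i := by
        ext j
        simp
      rw [h1, Fin.card_Ioi]
      omega
    · intro l l' h
      have h' : (⟨l, none⟩ : Σ j : Fin (t + 1), Option (Fin (cE j - 1))) = ⟨l', none⟩ :=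
        Option.some.inj h
      exact congrArg Sigma.fst h'
  have hHB : Hc ⊆ B := by
    intro x hx
    rw [hHc, mem_image] at hx
    obtain ⟨j, hj, rfl⟩ := hx
    rw [mem_filter] at hj
    exact hhigh j hj.2
  have hBH : (B \ Hc).card ≤ i := by
    rw [Finset.card_sdiff_of_subset hHB, hHcard]
    have := i.2
    omega
  have h1 := le_dg_add (Tr t) (S := B) (v := some ⟨i, none⟩) Nb (B \ Hc) (by
    intro x hx hxR
    refine ⟨hNbadj x hx, ?_⟩
    intro hxB
    apply hxR
    rw [mem_sdiff]
    refine ⟨hxB, ?_⟩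
    intro hxH
    rw [hHc, mem_image] at hxH
    obtain ⟨j, _, rfl⟩ := hxH
    rw [hNb, mem_insert, mem_image] at hx
    rcases hx with hx | ⟨l, _, hl⟩
    · cases hx
    · rw [Option.some.injEq, Sigma.mk.injEq] at hl
      obtain ⟨h1, h2⟩ := hl
      subst h1
      have h3 := eq_of_heq h2
      cases h3)
  omega

/-- Degree of a centre: upper bound. -/
theorem dg_center_upper (t : ℕ) (B : Finset (TV t)) (i : Fin (t + 1)) :
    dg (Tr t) B (some ⟨i, none⟩) ≤ cE i := by
  refine (dg_le_of_subset (Tr t) (insert none ((univ : Finset (Fin (cE i - 1))).image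
    (fun l => (some ⟨i, some l⟩ : TV t)))) ?_).trans ((Finset.card_insert_le _ _).trans ?_)
  · rintro x ⟨_, h | h⟩ _
    · rw [h]
      exact mem_insert_self _ _
    · rcases x with _ | ⟨j, _ | l⟩
      · exact mem_insert_self _ _
      · cases h
      · apply mem_insert_of_mem
        rw [mem_image]
        have h' : (some ⟨i, none⟩ : TV t) = some ⟨j, none⟩ := h
        rw [Option.some.injEq, Sigma.mk.injEq] at h'
        obtain ⟨h1, _⟩ := h'
        subst h1
        exact ⟨l, mem_univ _, rfl⟩
  · have h1 := Finset.card_image_le (s := (univ : Finset (Fin (cE i - 1))))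
      (f := (fun l => (some ⟨i, some l⟩ : TV t)))
    rw [Finset.card_univ, Fintype.card_fin] at h1
    have : 1 ≤ cE i := Nat.succ_le_succ (Nat.zero_le _)
    omega

/-- Degree of the root after deletion of all centres above `i`. -/
theorem dg_root_upper (t : ℕ) (B : Finset (TV t)) (i : Fin (t + 1))
    (hhigh : ∀ j : Fin (t + 1), i < j → (some ⟨j, none⟩ : TV t) ∈ B) :
    dg (Tr t) B none ≤ i + 1 := by
  refine (dg_le_of_subset (Tr t) ((univ.filter (fun j : Fin (t + 1) => j ≤ i)).image
    (fun j => (some ⟨j, none⟩ : TV t))) ?_).trans (Finset.card_image_le.trans ?_)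
  · rintro x ⟨hne, h | h⟩ hxB
    · exact absurd h.symm hne
    · rcases x with _ | ⟨j, _ | l⟩
      · exact absurd rfl hne
      · rw [mem_image]
        refine ⟨j, mem_filter.mpr ⟨mem_univ _, ?_⟩, rfl⟩
        by_contra hji
        exact hxB (hhigh j (not_le.mp hji))
      · cases h
  · have h1 : (univ.filter (fun j : Fin (t + 1) => j ≤ i)) = Finset.Iic i := by
      ext j
      simp
    rw [h1, Fin.card_Iic]

/-- Degree of a leaf. -/
theorem dg_leaf_upper (t : ℕ) (B : Finset (TV t)) (j : Fin (t + 1)) (l : Fin (cE j - 1)) :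
    dg (Tr t) B (some ⟨j, some l⟩) ≤ 1 := by
  refine (dg_le_of_subset (Tr t) {(some ⟨j, none⟩ : TV t)} ?_).trans (le_of_eq (card_singleton _))
  rintro z ⟨_, h | h⟩ _
  · rw [h]
    exact mem_singleton_self _
  · rcases z with _ | ⟨j', _ | l'⟩
    · cases h
    · cases h
    · have h' : (some ⟨j, some l⟩ : TV t) = some ⟨j', none⟩ := h
      rw [Option.some.injEq, Sigma.mk.injEq] at h'
      obtain ⟨h1, h2⟩ := h'
      subst h1
      have h3 := eq_of_heq h2
      cases h3

theorem cE_mono {i j : ℕ} (h : i ≤ j) : cE i ≤ cE j :=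
  Nat.succ_le_succ (Nat.choose_le_choose 2 (by omega))

/-- Part (ii). -/
theorem lower (t : ℕ) : t + 1 ≤ f (Tr t) := by
  have hne : {k : ℕ | ∃ B : Finset (TV t), B.card = k ∧
      Stops ((Tr t).induce {v : TV t | v ∉ B})}.Nonempty :=
    ⟨_, univ, rfl, stops_univ (Tr t)⟩
  apply le_csInf hne
  rintro k ⟨B, rfl, hstop⟩
  by_contra hcon
  have hB : B.card ≤ t := by omega
  -- the largest surviving centre
  have hex : (univ.filter (fun j : Fin (t + 1) => (some ⟨j, none⟩ : TV t) ∉ B)).Nonempty := by
    by_contra hemp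
    rw [Finset.not_nonempty_iff_eq_empty, Finset.filter_eq_empty_iff] at hemp
    have h1 : (univ.image (fun j : Fin (t + 1) => (some ⟨j, none⟩ : TV t))) ⊆ B := by
      intro x hx
      rw [mem_image] at hx
      obtain ⟨j, _, rfl⟩ := hx
      by_contra h
      exact hemp (mem_univ j) h
    have h2 := Finset.card_le_card h1
    rw [Finset.card_image_of_injective, Finset.card_univ, Fintype.card_fin] at h2
    · omega
    · intro l l' h
      have h' : (⟨l, none⟩ : Σ j : Fin (t + 1), Option (Fin (cE j - 1))) = ⟨l', none⟩ :=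
        Option.some.inj h
      exact congrArg Sigma.fst h'
  set i := (univ.filter (fun j : Fin (t + 1) => (some ⟨j, none⟩ : TV t) ∉ B)).max' hex with hi
  have hiB : (some ⟨i, none⟩ : TV t) ∉ B := by
    have := Finset.max'_mem _ hex
    rw [← hi, mem_filter] at this
    exact this.2
  have hhigh : ∀ j : Fin (t + 1), i < j → (some ⟨j, none⟩ : TV t) ∈ B := by
    intro j hj
    by_contra h
    exact absurd (Finset.le_max' _ j (mem_filter.mpr ⟨mem_univ _, h⟩)) (not_le.mpr hj)
  have hlow := dg_center_lower t B i hB hhigh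
  have hi2 := two_cE i
  have hbig : (i : ℕ) + 2 ≤ dg (Tr t) B (some ⟨i, none⟩) := by
    have h1 : (i : ℕ) ≤ (i : ℕ) ^ 2 := Nat.le_self_pow (by norm_num) _
    omega
  -- every other vertex has smaller degree
  have hall : ∀ x : TV t, x ∉ B → x ≠ some ⟨i, none⟩ →
      dg (Tr t) B x < dg (Tr t) B (some ⟨i, none⟩) := by
    intro x hxB hxi
    rcases x with _ | ⟨j, _ | l⟩
    · have := dg_root_upper t B i hhigh
      omega
    · have hji : j < i := by
        rcases lt_trichotomy j i with h | h | h
        · exact h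
        · exact absurd (by rw [h]) hxi
        · exact absurd (hhigh j h) hxB
      have h1 := dg_center_upper t B j
      have hji' : (j : ℕ) < i := hji
      have h2 : cE j ≤ cE (i - 1) := cE_mono (by omega)
      have h3 := cE_succ (i - 1)
      have h4 : (i : ℕ) - 1 + 1 = i := by omega
      rw [h4] at h3
      omega
    · have := dg_leaf_upper t B j l
      omega
  rcases stops_imp (Tr t) B hstop with hstop | ⟨u, v, huv, hu, hv, heq, hmax⟩
  · -- at least two vertices survive
    obtain ⟨w, hw1, hw2⟩ := exists_of_one_le_dg (Tr t) (S := B) (v := some ⟨i, none⟩) (by omega)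
    exact hw1.ne (hstop _ _ hiB hw2)
  · have h1 := hmax _ hiB
    by_cases hui : u = some ⟨i, none⟩
    · have hvi : v ≠ some ⟨i, none⟩ := fun h => huv (hui.trans h.symm)
      have h2 := hall v hv hvi
      rw [← hui] at h2
      omega
    · have h2 := hall u hu hui
      omega

/-- For every `t ≥ 1`, every forest on at most `N t` vertices satisfies `f F ≤ t`, and there is a
forest on `N t + 1` vertices with `f F ≥ t + 1`. -/
theorem result : ∀ t : ℕ, 1 ≤ t →
    (∀ (V : Type) [Fintype V] (F : SimpleGraph V), F.IsAcyclic → Fintype.card V ≤ N t → f F ≤ t) ∧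
    ∃ (V : Type) (_ : Fintype V) (F : SimpleGraph V), F.IsAcyclic ∧ Fintype.card V = N t + 1 ∧
      t + 1 ≤ f F := by
  intro t _
  refine ⟨fun V _ F hF hcard => upper t V F hF hcard, TV t, inferInstance, Tr t, Tr_acyclic t,
    card_TV t, lower t⟩

end Pool.Agent.Results.MP_fe24f9_co.ForestThreshold
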